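import Pool.Agent.PRAR.Ba

/-! # Section 10: nonzero maps -/

set_option autoImplicit false
set_option linter.unusedSectionVars false

open scoped Classical

noncomputable section

namespace PRAR

variable {ι : Type} [Fintype ι] {F : Type} [Field F] [Fintype F]
variable {Y V : Type} [AddCommGroup Y] [Module F Y] [Fintype Y] [AddCommGroup V] [Module F V]
  [Fintype V]

theorem kg_prob_not {α : Type*} [Fintype α] [Nonempty α] (p : α → Prop) :
    prob (fun x => ¬ p x) = 1 - prob p := by
  rw [prob_eq_avg, prob_eq_avg, eq_sub_iff_add_eq, ← avg_add]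
  refine Eq.trans (congrArg avg (funext fun x => ?_)) (avg_const (α := α) 1)
  by_cases hx : p x <;> simp [hx]

theorem kg_lin (L : Y →ₗ[F] V) (h : ∃ u, L u ≠ 0) :
    1 - (qq F)⁻¹ ≤ prob (fun u : Y => L u ≠ 0) := by
  have h1 : prob (fun u : Y => L u ≠ 0) = 1 - prob (fun u : Y => L u = 0) :=
    kg_prob_not (fun u : Y => L u = 0)
  have h2 : prob (fun u : Y => L u = 0) = prob (fun u : Y => u ∈ LinearMap.ker L) :=
    prob_congr fun u => (LinearMap.mem_ker).symm
  have h3 : 1 ≤ codim (LinearMap.ker L) := by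
    rw [codim_ker]
    rw [Nat.one_le_iff_ne_zero]
    intro h0
    rw [Submodule.finrank_eq_zero] at h0
    obtain ⟨u, hu⟩ := h
    rw [LinearMap.range_eq_bot] at h0
    exact hu (by rw [h0]; rfl)
  have hq := one_lt_qq F
  have h4 : (qq F)⁻¹ ^ codim (LinearMap.ker L) ≤ (qq F)⁻¹ ^ 1 :=
    pow_le_pow_of_le_one (by positivity) (inv_le_one_of_one_le₀ hq.le) h3
  rw [h1, h2, prob_mem]
  rw [pow_one] at h4
  linarith

theorem prob_ne_zero {I : Finset ι} {f : (ι → Y) → V} (hf : MLin F I f) (h : ∃ y, f y ≠ 0) :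
    (1 - (qq F)⁻¹) ^ I.card ≤ prob (fun y : ι → Y => f y ≠ 0) := by
  induction I using Finset.induction_on generalizing f with
  | empty =>
    obtain ⟨y0, hy0⟩ := h
    have h1 : ∀ y, f y ≠ 0 := by
      intro y
      have : f y = f y0 := hf.congr (by simp)
      rw [this]
      exact hy0
    rw [prob_le_of_equiv_one h1]
    simp
  | insert i s hi ih =>
    obtain ⟨y0, hy0⟩ := h
    have hg : MLin F s (fun z => f (Function.update z i (y0 i))) := by
      refine ⟨?_, ?_, ?_⟩
      · intro k hk y u v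
        have hki : k ≠ i := fun e => hi (e ▸ hk)
        rw [Function.update_comm hki, Function.update_comm hki, Function.update_comm hki]
        exact hf.add k (Finset.mem_insert_of_mem hk) _ _ _
      · intro k hk y c u
        have hki : k ≠ i := fun e => hi (e ▸ hk)
        rw [Function.update_comm hki, Function.update_comm hki]
        exact hf.smul k (Finset.mem_insert_of_mem hk) _ _ _
      · intro k hk y u
        by_cases hki : k = i
        · subst hki
          rw [Function.update_idem]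
        · rw [Function.update_comm hki]
          apply hf.off
          rw [Finset.mem_insert, not_or]
          exact ⟨hki, hk⟩
    have h1 := ih hg ⟨y0, by rw [Function.update_eq_self]; exact hy0⟩
    have hq := one_lt_qq F
    have hq1 : (qq F)⁻¹ ≤ 1 := inv_le_one_of_one_le₀ hq.le
    have h2 : ∀ z : ι → Y, (1 - (qq F)⁻¹) * (if f (Function.update z i (y0 i)) ≠ 0 then (1:ℝ) else 0) ≤
        prob (fun u : Y => f (Function.update z i u) ≠ 0) := by
      intro z
      by_cases hz : f (Function.update z i (y0 i)) ≠ 0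
      · rw [if_pos hz, mul_one]
        exact kg_lin (slotMap hf (Finset.mem_insert_self i s) z) ⟨y0 i, hz⟩
      · rw [if_neg hz, mul_zero]
        exact prob_nonneg _
    rw [Finset.card_insert_of_notMem hi, ← prob_update i (fun y => f y ≠ 0)]
    refine le_trans ?_ (avg_mono h2)
    have he : (avg fun x : ι → Y => if f (Function.update x i (y0 i)) ≠ 0 then (1:ℝ) else 0) =
        prob (fun x : ι → Y => f (Function.update x i (y0 i)) ≠ 0) := by
      rw [prob_eq_avg]
      refine congrArg avg (funext fun x => ?_)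
      by_cases hx : f (Function.update x i (y0 i)) = 0 <;> simp [hx]
    rw [avg_const_mul, he, pow_succ, mul_comm]
    exact mul_le_mul_of_nonneg_left h1 (by linarith)

theorem kg_num {n : ℕ} (hn : 1 ≤ n) {q P : ℝ} (hq : 2 ≤ q) (hP : 0 < P)
    (hPle : P ≤ 1 - (1 - q⁻¹) ^ n) :
    min (1 / 2) (-Real.log (1 - (1 / 2) ^ n) / Real.log ((n : ℝ) ^ 2 + 2)) ≤ - Real.logb q P := by
  have hq0 : 0 < q := by linarith
  have hqi : q⁻¹ ≤ 1 / 2 := by
    rw [one_div]
    exact inv_anti₀ (by norm_num) hq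
  have hqi0 : 0 < q⁻¹ := by positivity
  have hlogq : 0 < Real.log q := Real.log_pos (by linarith)
  have hn' : (1 : ℝ) ≤ n := by exact_mod_cast hn
  by_cases hc : (n : ℝ) ^ 2 ≤ q
  · refine (min_le_left _ _).trans ?_
    have h1 : 1 - (n : ℝ) * q⁻¹ ≤ (1 - q⁻¹) ^ n := by
      have := one_add_mul_le_pow (a := -q⁻¹) (by linarith) n
      calc 1 - (n : ℝ) * q⁻¹ = 1 + (n : ℝ) * (-q⁻¹) := by ring
        _ ≤ (1 + -q⁻¹) ^ n := this
        _ = (1 - q⁻¹) ^ n := by rw [sub_eq_add_neg]
    have h2 : P ≤ (n : ℝ) * q⁻¹ := by linarith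
    have h3 : (n : ℝ) ≤ Real.sqrt q := Real.le_sqrt_of_sq_le hc
    have h4 : P ≤ (Real.sqrt q)⁻¹ := by
      refine h2.trans ?_
      calc (n : ℝ) * q⁻¹ ≤ Real.sqrt q * q⁻¹ := by gcongr
        _ = (Real.sqrt q)⁻¹ := by
          have h5 : q = Real.sqrt q * Real.sqrt q := (Real.mul_self_sqrt hq0.le).symm
          have h6 : Real.sqrt q ≠ 0 := (Real.sqrt_pos.2 hq0).ne'
          conv_lhs => rw [h5]
          rw [Real.sqrt_mul_self (Real.sqrt_nonneg q)]
          field_simp
    have h5 : Real.log P ≤ -(1 / 2) * Real.log q := by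
      have := Real.log_le_log hP h4
      rw [Real.log_inv, Real.log_sqrt hq0.le] at this
      linarith
    rw [Real.logb, le_neg, div_le_iff₀ hlogq]
    exact h5
  · refine (min_le_right _ _).trans ?_
    have h1 : ((1:ℝ) / 2) ^ n ≤ (1 - q⁻¹) ^ n := by
      apply pow_le_pow_left₀ (by norm_num)
      linarith
    have h2 : P ≤ 1 - (1 / 2) ^ n := by linarith
    have h3 : Real.log P ≤ Real.log (1 - (1 / 2) ^ n) := Real.log_le_log hP h2
    have h4 : ((1:ℝ) / 2) ^ n ≤ 1 / 2 := by
      calc ((1:ℝ) / 2) ^ n ≤ (1 / 2) ^ 1 := pow_le_pow_of_le_one (by norm_num) (by norm_num) hn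
        _ = 1 / 2 := pow_one _
    have h40 : (0:ℝ) < (1 / 2) ^ n := by positivity
    have h5 : Real.log (1 - (1 / 2) ^ n) < 0 := Real.log_neg (by linarith) (by linarith)
    have h6 : Real.log q ≤ Real.log ((n : ℝ) ^ 2 + 2) := by
      apply Real.log_le_log hq0
      push Not at hc
      linarith
    have h7 : 0 < Real.log ((n : ℝ) ^ 2 + 2) := lt_of_lt_of_le hlogq h6
    rw [Real.logb, ← neg_div]
    calc -Real.log (1 - (1 / 2) ^ n) / Real.log ((n : ℝ) ^ 2 + 2)
        ≤ -Real.log (1 - (1 / 2) ^ n) / Real.log q := by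
          apply div_le_div_of_nonneg_left (by linarith) hlogq h6
      _ ≤ -Real.log P / Real.log q := by
          apply div_le_div_of_nonneg_right (by linarith) hlogq.le

/-- A nonzero map has analytic rank bounded below, uniformly in the field. -/
theorem ar_lower (n : ℕ) : ∃ c : ℝ, 0 < c ∧ ∀ (ι : Type) [Fintype ι] (F : Type) [Field F]
    [Fintype F] (Y V : Type) [AddCommGroup Y] [Module F Y] [Fintype Y] [AddCommGroup V]
    [Module F V] [Fintype V] (I : Finset ι) (f : (ι → Y) → V), I.card ≤ n → MLin F I f →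
    (∃ y, f y ≠ 0) → 0 < prob (fun y : ι → Y => f y = 0) →
    c ≤ - Real.logb (qq F) (prob (fun y : ι → Y => f y = 0)) := by
  rcases Nat.eq_zero_or_pos n with hn | hn
  · refine ⟨1, one_pos, ?_⟩
    intro ι _ F _ _ Y V _ _ _ _ _ _ I f hI hf h hpos
    exfalso
    rw [hn, Nat.le_zero, Finset.card_eq_zero] at hI
    subst hI
    obtain ⟨y0, hy0⟩ := h
    obtain ⟨x, hx⟩ := exists_of_prob_pos hpos
    have : f y0 = f x := hf.congr (by simp)
    exact hy0 (this.trans hx)
  · refine ⟨min (1 / 2) (-Real.log (1 - (1 / 2) ^ n) / Real.log ((n : ℝ) ^ 2 + 2)), ?_, ?_⟩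
    · have h4 : ((1:ℝ) / 2) ^ n ≤ 1 / 2 := by
        calc ((1:ℝ) / 2) ^ n ≤ (1 / 2) ^ 1 := pow_le_pow_of_le_one (by norm_num) (by norm_num) hn
          _ = 1 / 2 := pow_one _
      have h40 : (0:ℝ) < (1 / 2) ^ n := by positivity
      have h5 : Real.log (1 - (1 / 2) ^ n) < 0 := Real.log_neg (by linarith) (by linarith)
      have h7 : 0 < Real.log ((n : ℝ) ^ 2 + 2) := Real.log_pos (by nlinarith [sq_nonneg (n : ℝ)])
      apply lt_min (by norm_num)
      apply div_pos (by linarith) h7
    · intro ι _ F _ _ Y V _ _ _ _ _ _ I f hI hf h hpos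
      have h2q := two_le_qq F
      apply kg_num hn h2q hpos
      have h1 := prob_ne_zero hf h
      have h2 : prob (fun y : ι → Y => f y ≠ 0) = 1 - prob (fun y : ι → Y => f y = 0) :=
        kg_prob_not (fun y : ι → Y => f y = 0)
      have hqi : (qq F)⁻¹ ≤ 1 := inv_le_one_of_one_le₀ (by linarith)
      have hqi0 : 0 ≤ (qq F)⁻¹ := by
        have := qq_pos F
        positivity
      have h3 : (1 - (qq F)⁻¹) ^ n ≤ (1 - (qq F)⁻¹) ^ I.card :=
        pow_le_pow_of_le_one (by linarith) (by linarith) hI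
      linarith

end PRAR
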