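import Pool.Agent.PRAR.K.F
import Pool.Agent.PRAR.K.G

/-! # Section 10: scalar forms -/

set_option autoImplicit false
set_option linter.unusedSectionVars false

open scoped Classical

noncomputable section

namespace PRAR

/-- Decomposition of a scalar form on all slots into `r` products of forms on complementary sets of
slots, the first factor not containing the slot `i0`. -/
def SPR {ι : Type} [Fintype ι] (F : Type) [Field F] {Y : Type} [AddCommGroup Y] [Module F Y]
    (i0 : ι) (T : (ι → Y) → F) (r : ℕ) : Prop :=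
  ∃ (J : Fin r → Finset ι) (a b : Fin r → (ι → Y) → F), (∀ k, (J k).Nonempty ∧ i0 ∉ J k) ∧
    (∀ k, MLin F (J k) (a k)) ∧ (∀ k, MLin F (Finset.univ \ J k) (b k)) ∧
    ∀ y, T y = ∑ k, a k y * b k y

theorem kh_prob_pos {α : Type*} [Fintype α] {p : α → Prop} {x : α} (h : p x) :
    0 < prob p := by
  unfold prob
  apply div_pos
  · exact Nat.cast_pos.2 (Finset.card_pos.2 ⟨x, by simpa using h⟩)
  · exact Nat.cast_pos.2 (Fintype.card_pos_iff.2 ⟨x⟩)

section

variable {ι : Type} [Fintype ι] {F : Type} [Field F] {Y : Type} [AddCommGroup Y] [Module F Y]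

/-- The vector valued map attached to a form on all slots. -/
def kh_f (i0 : ι) (T : (ι → Y) → F) (hT : MLin F Finset.univ T) :
    (ι → Y) → Module.Dual F Y := fun y =>
  { toFun := fun u => T (Function.update y i0 u)
    map_add' := fun u v => hT.add i0 (Finset.mem_univ _) y u v
    map_smul' := fun c u => by simpa using hT.smul i0 (Finset.mem_univ _) y c u }

theorem kh_f_apply (i0 : ι) (T : (ι → Y) → F) (hT : MLin F Finset.univ T) (y : ι → Y) (u : Y) :
    kh_f i0 T hT y u = T (Function.update y i0 u) := rfl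

theorem kh_f_mlin (i0 : ι) (T : (ι → Y) → F) (hT : MLin F Finset.univ T) :
    MLin F (Finset.univ.erase i0) (kh_f i0 T hT) := by
  refine ⟨?_, ?_, ?_⟩
  · intro i hi y u v
    have hne : i ≠ i0 := Finset.ne_of_mem_erase hi
    apply LinearMap.ext
    intro w
    rw [LinearMap.add_apply]
    simp only [kh_f_apply]
    rw [Function.update_comm hne, Function.update_comm hne, Function.update_comm hne]
    exact hT.add i (Finset.mem_univ _) _ u v
  · intro i hi y c u
    have hne : i ≠ i0 := Finset.ne_of_mem_erase hi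
    apply LinearMap.ext
    intro w
    rw [LinearMap.smul_apply]
    simp only [kh_f_apply]
    rw [Function.update_comm hne, Function.update_comm hne]
    exact hT.smul i (Finset.mem_univ _) _ c u
  · intro i hi y u
    have hne : i = i0 := by
      by_contra hne
      exact hi (Finset.mem_erase.2 ⟨hne, Finset.mem_univ _⟩)
    subst hne
    apply LinearMap.ext
    intro w
    simp only [kh_f_apply]
    rw [Function.update_idem]

theorem kh_spr (i0 : ι) (T : (ι → Y) → F) (hT : MLin F Finset.univ T) (r : ℕ)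
    (h : PRle F (Finset.univ.erase i0) (kh_f i0 T hT) r) : SPR F i0 T r := by
  obtain ⟨g, hg, hsum⟩ := h
  unfold IsProd at hg
  choose J hJ hJs p v hp hv hgv using hg
  refine ⟨J, p, fun k y => v k y (y i0), ?_, hp, ?_, ?_⟩
  · intro k
    refine ⟨hJ k, fun hk => ?_⟩
    exact Finset.ne_of_mem_erase (hJs k hk) rfl
  · intro k
    have hoff : ∀ (y : ι → Y) (u : Y), v k (Function.update y i0 u) = v k y := by
      intro y u
      apply (hv k).off
      simp
    refine ⟨?_, ?_, ?_⟩
    · intro i hi y u w
      by_cases hi0 : i = i0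
      · subst hi0
        simp only [hoff, Function.update_self, map_add]
      · have hi1 : i ∈ Finset.univ.erase i0 \ J k :=
          Finset.mem_sdiff.2 ⟨Finset.mem_erase.2 ⟨hi0, Finset.mem_univ _⟩,
            (Finset.mem_sdiff.1 hi).2⟩
        have hne : i0 ≠ i := fun h => hi0 h.symm
        simp only [Function.update_of_ne hne]
        rw [(hv k).add i hi1, LinearMap.add_apply]
    · intro i hi y c u
      by_cases hi0 : i = i0
      · subst hi0
        simp only [hoff, Function.update_self, map_smul]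
      · have hi1 : i ∈ Finset.univ.erase i0 \ J k :=
          Finset.mem_sdiff.2 ⟨Finset.mem_erase.2 ⟨hi0, Finset.mem_univ _⟩,
            (Finset.mem_sdiff.1 hi).2⟩
        have hne : i0 ≠ i := fun h => hi0 h.symm
        simp only [Function.update_of_ne hne]
        rw [(hv k).smul i hi1, LinearMap.smul_apply]
    · intro i hi y u
      have hiJ : i ∈ J k := by
        by_contra hcon
        exact hi (Finset.mem_sdiff.2 ⟨Finset.mem_univ _, hcon⟩)
      have hne : i0 ≠ i := fun h => Finset.ne_of_mem_erase (hJs k hiJ) h.symm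
      simp only [Function.update_of_ne hne]
      rw [(hv k).off i fun hh => (Finset.mem_sdiff.1 hh).2 hiJ]
  · intro y
    have h1 : T y = kh_f i0 T hT y (y i0) := by
      rw [kh_f_apply, Function.update_eq_self]
    rw [h1, hsum y, LinearMap.sum_apply]
    refine Finset.sum_congr rfl fun k _ => ?_
    rw [hgv k y, LinearMap.smul_apply, smul_eq_mul]

end

/-- The linear bound for scalar forms. -/
theorem scalar_bound (ι : Type) [Fintype ι] (i0 : ι) (hι : ∃ i : ι, i ≠ i0)
    (h : ∃ C : ℕ, ∀ (F : Type) [Field F] [Fintype F] (I : Finset ι), DD F I C) :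
    ∃ C : ℝ, 0 < C ∧ ∀ (F : Type) [Field F] [Fintype F] (Y : Type) [AddCommGroup Y] [Module F Y]
      [Fintype Y] (T : (ι → Y) → F), MLin F Finset.univ T →
      ∃ r : ℕ, (r : ℝ) ≤ C * (- Real.logb (qq F)
        (prob (fun y : ι → Y => ∀ u, T (Function.update y i0 u) = 0))) ∧ SPR F i0 T r := by
  obtain ⟨C0, hC0⟩ := h
  obtain ⟨c, hc, hlow⟩ := ar_lower (Fintype.card ι)
  have hc2 : 0 < 1 + 2 / c := by positivity
  refine ⟨(C0 + 1) * (1 + 2 / c), by positivity, ?_⟩
  intro F _ _ Y _ _ _ T hT
  have : Fintype (Module.Dual F Y) :=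
    Fintype.ofInjective (fun g : Module.Dual F Y => (g : Y → F)) DFunLike.coe_injective
  have hpr : prob (fun y : ι → Y => ∀ u, T (Function.update y i0 u) = 0) =
      prob (fun y : ι → Y => kh_f i0 T hT y = 0) := by
    apply prob_congr
    intro y
    constructor
    · intro hy
      apply LinearMap.ext
      intro u
      rw [kh_f_apply, hy u, LinearMap.zero_apply]
    · intro hy u
      rw [← kh_f_apply i0 T hT, hy, LinearMap.zero_apply]
  rw [hpr]
  set P := prob (fun y : ι → Y => kh_f i0 T hT y = 0) with hP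
  have hP1 : P ≤ 1 := prob_le_one _
  have hq := one_lt_qq F
  have hP0 : 0 < P := by
    obtain ⟨i, hi⟩ := hι
    have h0 : kh_f i0 T hT 0 = 0 := by
      apply LinearMap.ext
      intro u
      rw [kh_f_apply, LinearMap.zero_apply]
      apply hT.eq_zero_of_coord (Finset.mem_univ i)
      rw [Function.update_of_ne hi, Pi.zero_apply]
    exact kh_prob_pos (p := fun y : ι → Y => kh_f i0 T hT y = 0) (x := 0) h0
  have har0 : 0 ≤ - Real.logb (qq F) P := by
    have := Real.logb_nonpos hq hP0.le hP1
    linarith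
  by_cases hz : ∃ y, kh_f i0 T hT y ≠ 0
  · have har := hlow ι F Y (Module.Dual F Y) (Finset.univ.erase i0) (kh_f i0 T hT)
      (Finset.card_le_univ _) (kh_f_mlin i0 T hT) hz hP0
    set ar := - Real.logb (qq F) P with hard
    have hPar : P = (qq F) ^ (-ar) := by
      rw [hard, neg_neg, Real.rpow_logb (qq_pos F) hq.ne' hP0]
    obtain ⟨r, hr, hpr2⟩ := hC0 F (Finset.univ.erase i0) Y (Module.Dual F Y) (kh_f i0 T hT)
      (kh_f_mlin i0 T hT) ⌈ar⌉₊ (by
        rw [← hP, hPar, inv_pow, ← Real.rpow_natCast, ← Real.rpow_neg (qq_pos F).le]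
        apply Real.rpow_le_rpow_of_exponent_le hq.le
        have := Nat.le_ceil ar
        linarith)
    refine ⟨r, ?_, kh_spr i0 T hT r hpr2⟩
    have h1 : (r : ℝ) ≤ C0 * ((⌈ar⌉₊ : ℝ) + 1) := by exact_mod_cast hr
    have h2 : (⌈ar⌉₊ : ℝ) < ar + 1 := Nat.ceil_lt_add_one har0
    have h3 : (1 : ℝ) ≤ ar / c := by
      rw [le_div_iff₀ hc, one_mul]
      exact har
    have h4 : (⌈ar⌉₊ : ℝ) + 1 ≤ (1 + 2 / c) * ar := by
      have : (1 + 2 / c) * ar = ar + 2 * (ar / c) := by
        field_simp
      rw [this]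
      linarith
    calc (r : ℝ) ≤ C0 * ((⌈ar⌉₊ : ℝ) + 1) := h1
      _ ≤ C0 * ((1 + 2 / c) * ar) := mul_le_mul_of_nonneg_left h4 (Nat.cast_nonneg _)
      _ ≤ (C0 + 1) * ((1 + 2 / c) * ar) := by
        apply mul_le_mul_of_nonneg_right _ (mul_nonneg hc2.le har0)
        linarith
      _ = (C0 + 1) * (1 + 2 / c) * ar := by ring
  · push Not at hz
    refine ⟨0, ?_, ?_⟩
    · rw [Nat.cast_zero]
      exact mul_nonneg (by positivity) har0
    · refine ⟨fun k => k.elim0, fun k => k.elim0, fun k => k.elim0, fun k => k.elim0,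
        fun k => k.elim0, fun k => k.elim0, ?_⟩
      intro y
      have h1 : T y = kh_f i0 T hT y (y i0) := by
        rw [kh_f_apply, Function.update_eq_self]
      rw [h1, hz y, LinearMap.zero_apply]
      simp

end PRAR
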