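import Pool.Agent.PRAR.K.H

/-! # Section 10: different spaces in the slots, multilinear maps -/

set_option autoImplicit false
set_option linter.unusedSectionVars false

open scoped Classical

noncomputable section

namespace PRAR

/-- The conclusion of `scalar_bound` as a proposition. -/
def ScalarBound (ι : Type) [Fintype ι] (i0 : ι) : Prop :=
  ∃ C : ℝ, 0 < C ∧ ∀ (F : Type) [Field F] [Fintype F] (Y : Type) [AddCommGroup Y] [Module F Y]
      [Fintype Y] (T : (ι → Y) → F), MLin F Finset.univ T →
      ∃ r : ℕ, (r : ℝ) ≤ C * (- Real.logb (qq F)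
        (prob (fun y : ι → Y => ∀ u, T (Function.update y i0 u) = 0))) ∧ SPR F i0 T r

/-- A surjective homomorphism preserves uniform probability. -/
theorem ki_surj {A B : Type} [AddCommGroup A] [AddCommGroup B] [Fintype A] [Fintype B]
    (φ : A →+ B) (hφ : Function.Surjective φ) (G : B → Prop) :
    prob (fun x => G (φ x)) = prob G := by
  obtain ⟨s, hs⟩ := hφ.hasRightInverse
  let e : A ≃ B × φ.ker :=
    { toFun := fun x => (φ x, ⟨x - s (φ x), by rw [AddMonoidHom.mem_ker, map_sub, hs]; simp⟩)
      invFun := fun p => p.2.1 + s p.1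
      left_inv := by intro x; simp
      right_inv := by
        rintro ⟨b, k, hk⟩
        rw [AddMonoidHom.mem_ker] at hk
        have h1 : φ (k + s b) = b := by rw [map_add, hk, hs, zero_add]
        ext
        · exact h1
        · simp only [h1]
          abel }
  rw [prob_eq_avg, prob_eq_avg]
  have h2 := avg_equiv e (fun q : B × φ.ker => if G q.1 then (1 : ℝ) else 0)
  have h3 : avg (fun x : A => if G (φ x) then (1 : ℝ) else 0) =
      avg (fun q : B × φ.ker => if G q.1 then (1 : ℝ) else 0) := h2
  rw [h3]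
  exact bab_avg_fst (β := φ.ker) (fun q => if G q then (1 : ℝ) else 0)

section

variable {ι : Type} [Fintype ι] {F : Type} [Field F] {n : ι → ℕ}

/-- The common space. -/
abbrev KiY (F : Type) {ι : Type} (n : ι → ℕ) : Type := (i : ι) → Fin (n i) → F

theorem ki_diag (y : ι → KiY F n) (i : ι) (u : KiY F n) :
    (fun k => Function.update y i u k k) = Function.update (fun k => y k k) i (u i) := by
  funext k
  by_cases h : k = i
  · subst h
    simp
  · simp [h]

theorem ki_mlin (T : MultilinearMap F (fun i : ι => Fin (n i) → F) F) :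
    MLin F Finset.univ (fun y : ι → KiY F n => T (fun k => y k k)) := by
  refine ⟨?_, ?_, ?_⟩
  · intro i _ y u v
    simp only [ki_diag, Pi.add_apply]
    exact T.map_update_add _ _ _ _
  · intro i _ y c u
    simp only [ki_diag, Pi.smul_apply]
    exact T.map_update_smul _ _ _ _
  · intro i hi
    exact absurd (Finset.mem_univ i) hi

/-- The point with the vector `x j` in slot `j`, for `j` with `P j`. -/
def ki_emb (P : ι → Prop) (x : (j : {j // P j}) → Fin (n j.1) → F) : ι → KiY F n :=
  fun i => if h : P i then Pi.single i (x ⟨i, h⟩) else 0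

theorem ki_emb_update (P : ι → Prop) (x : (j : {j // P j}) → Fin (n j.1) → F)
    (j : {j // P j}) (u : Fin (n j.1) → F) (inst : DecidableEq {j // P j}) :
    ki_emb P (@Function.update _ _ inst x j u) =
      Function.update (ki_emb P x) j.1 (Pi.single j.1 u : KiY F n) := by
  funext i
  by_cases h : i = j.1
  · subst h
    rw [Function.update_self]
    unfold ki_emb
    rw [dif_pos j.2]
    congr 1
    exact Function.update_self _ _ _
  · rw [Function.update_of_ne h]
    unfold ki_emb
    by_cases hP : P i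
    · rw [dif_pos hP, dif_pos hP]
      congr 1
      rw [Function.update_of_ne]
      intro e
      exact h (congrArg Subtype.val e)
    · rw [dif_neg hP, dif_neg hP]

/-- The multilinear map of a form of type `I`. -/
def ki_ml (P : ι → Prop) (I : Finset ι) (hI : ∀ i, P i → i ∈ I)
    (g : (ι → KiY F n) → F) (hg : MLin F I g) :
    MultilinearMap F (fun j : {j // P j} => Fin (n j.1) → F) F where
  toFun x := g (ki_emb P x)
  map_update_add' := by
    intro inst x j u v
    rw [ki_emb_update, ki_emb_update, ki_emb_update, Pi.single_add]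
    exact hg.add j.1 (hI _ j.2) _ _ _
  map_update_smul' := by
    intro inst x j c u
    rw [ki_emb_update, ki_emb_update, Pi.single_smul]
    exact hg.smul j.1 (hI _ j.2) _ _ _

theorem ki_ml_apply (P : ι → Prop) (I : Finset ι) (hI : ∀ i, P i → i ∈ I)
    (hI' : ∀ i ∈ I, P i) (g : (ι → KiY F n) → F) (hg : MLin F I g) (x : KiY F n) :
    ki_ml P I hI g hg (fun j => x j.1) = g (fun i => (Pi.single i (x i) : KiY F n)) := by
  show g (ki_emb P (fun j => x j.1)) = _
  refine hg.congr ?_
  intro i hi
  unfold ki_emb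
  rw [dif_pos (hI' i hi)]

end

theorem ki_main (ι : Type) [Fintype ι] (i0 : ι) (h : ScalarBound ι i0) :
    ∃ C : ℝ, 0 < C ∧ ∀ (F : Type) [Field F] [Fintype F] (n : ι → ℕ)
      (T : MultilinearMap F (fun i : ι => Fin (n i) → F) F),
      ∃ r : ℕ, (r : ℝ) ≤ C * (- Real.logb (Fintype.card F : ℝ)
        ((Nat.card {x : (i : ι) → Fin (n i) → F //
            ∀ y : Fin (n i0) → F, T (Function.update x i0 y) = 0} : ℝ) /
          (Nat.card ((i : ι) → Fin (n i) → F) : ℝ))) ∧
      ∃ S : Fin r → Finset ι,
      ∃ a : (k : Fin r) → MultilinearMap F (fun j : {j // j ∈ S k} => Fin (n j.1) → F) F,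
      ∃ b : (k : Fin r) → MultilinearMap F (fun j : {j // j ∉ S k} => Fin (n j.1) → F) F,
      (∀ k, (S k).Nonempty ∧ i0 ∉ S k) ∧
      ∀ x : (i : ι) → Fin (n i) → F,
        T x = ∑ k, a k (fun j => x j.1) * b k (fun j => x j.1) := by
  obtain ⟨C, hC, h⟩ := h
  refine ⟨C, hC, ?_⟩
  intro F _ _ n T
  obtain ⟨r, hr, J, a, b, h1, h2, h3, h4⟩ := h F (KiY F n) (fun y => T (fun k => y k k)) (ki_mlin T)
  refine ⟨r, ?_, J, fun k => ki_ml (fun j => j ∈ J k) (J k) (fun _ hi => hi) (a k) (h2 k),
    fun k => ki_ml (fun j => j ∉ J k) (Finset.univ \ J k) (fun _ hi => by simpa using hi) (b k)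
      (h3 k), h1, ?_⟩
  · refine hr.trans (le_of_eq ?_)
    congr 3
    let φ : (ι → KiY F n) →+ KiY F n :=
      { toFun := fun y k => y k k
        map_zero' := rfl
        map_add' := fun _ _ => rfl }
    have hφ : Function.Surjective φ := fun x => ⟨fun _ => x, rfl⟩
    have e1 := ki_surj φ hφ (fun x => ∀ y : Fin (n i0) → F, T (Function.update x i0 y) = 0)
    have e2 : prob (fun y : ι → KiY F n => ∀ u : KiY F n,
        T (fun k => Function.update y i0 u k k) = 0) =
        prob (fun y => ∀ v : Fin (n i0) → F, T (Function.update (φ y) i0 v) = 0) := by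
      apply prob_congr
      intro y
      simp only [ki_diag]
      constructor
      · intro hu v
        have := hu (Pi.single i0 v)
        rw [Pi.single_eq_same] at this
        exact this
      · intro hv u
        exact hv (u i0)
    rw [e2, e1]
    unfold prob
    rw [Nat.card_eq_fintype_card, Nat.card_eq_fintype_card, Fintype.card_subtype]
    congr!
  · intro x
    have e := h4 (fun i => (Pi.single i (x i) : KiY F n))
    have e3 : (fun k => (Pi.single k (x k) : KiY F n) k) = x := by
      funext k
      rw [Pi.single_eq_same]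
    have e4 : T x = T (fun k => (Pi.single k (x k) : KiY F n) k) := by rw [e3]
    rw [e4]
    refine Eq.trans e ?_
    refine Finset.sum_congr rfl ?_
    intro k _
    rw [ki_ml_apply _ _ _ (fun _ hi => hi), ki_ml_apply _ _ _ (fun _ hi => by simpa using hi)]

theorem ki_main_dec (ι : Type) [Fintype ι] (dec : DecidableEq ι) (i0 : ι) (h : ScalarBound ι i0) :
    ∃ C : ℝ, 0 < C ∧ ∀ (F : Type) [Field F] [Fintype F] (n : ι → ℕ)
      (T : MultilinearMap F (fun i : ι => Fin (n i) → F) F),
      ∃ r : ℕ, (r : ℝ) ≤ C * (- Real.logb (Fintype.card F : ℝ)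
        ((Nat.card {x : (i : ι) → Fin (n i) → F //
            ∀ y : Fin (n i0) → F, T (@Function.update _ _ dec x i0 y) = 0} : ℝ) /
          (Nat.card ((i : ι) → Fin (n i) → F) : ℝ))) ∧
      ∃ S : Fin r → Finset ι,
      ∃ a : (k : Fin r) → MultilinearMap F (fun j : {j // j ∈ S k} => Fin (n j.1) → F) F,
      ∃ b : (k : Fin r) → MultilinearMap F (fun j : {j // j ∉ S k} => Fin (n j.1) → F) F,
      (∀ k, (S k).Nonempty ∧ i0 ∉ S k) ∧
      ∀ x : (i : ι) → Fin (n i) → F,
        T x = ∑ k, a k (fun j => x j.1) * b k (fun j => x j.1) := by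
  have e : dec = fun a b => Classical.propDecidable (a = b) := Subsingleton.elim _ _
  subst e
  exact ki_main ι i0 h

/-- Multilinear maps on different coordinate spaces. -/
theorem multilinear_bound (d : ℕ) (i0 : Fin d) (h : ScalarBound (Fin d) i0) :
    ∃ C : ℝ, 0 < C ∧ ∀ (F : Type) [Field F] [Fintype F] (n : Fin d → ℕ)
      (T : MultilinearMap F (fun i : Fin d => Fin (n i) → F) F),
      ∃ r : ℕ, (r : ℝ) ≤ C * (- Real.logb (Fintype.card F : ℝ)
        ((Nat.card {x : (i : Fin d) → Fin (n i) → F //
            ∀ y : Fin (n i0) → F, T (Function.update x i0 y) = 0} : ℝ) /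
          (Nat.card ((i : Fin d) → Fin (n i) → F) : ℝ))) ∧
      ∃ S : Fin r → Finset (Fin d),
      ∃ a : (k : Fin r) → MultilinearMap F (fun j : {j // j ∈ S k} => Fin (n j.1) → F) F,
      ∃ b : (k : Fin r) → MultilinearMap F (fun j : {j // j ∉ S k} => Fin (n j.1) → F) F,
      (∀ k, (S k).Nonempty ∧ i0 ∉ S k) ∧
      ∀ x : (i : Fin d) → Fin (n i) → F,
        T x = ∑ k, a k (fun j => x j.1) * b k (fun j => x j.1) :=
  ki_main_dec (Fin d) (instDecidableEqFin d) i0 h

end PRAR
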