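import Pool.Agent.PRAR.PRBasic

/-! # Section 10: extensions of finite fields -/

set_option autoImplicit false
set_option linter.unusedSectionVars false

open scoped Classical

noncomputable section

namespace PRAR

theorem exists_ext (F : Type) [Field F] [Fintype F] (e : ℕ) (he : 1 ≤ e) :
    ∃ (K : Type) (_ : Field K) (_ : Fintype K) (_ : Algebra F K), Module.finrank F K = e := by
  obtain ⟨p, hp⟩ := CharP.exists F
  have hpp : Fact p.Prime := ⟨CharP.char_is_prime F p⟩
  have : NeZero e := ⟨by omega⟩
  exact ⟨FiniteField.Extension F p e, inferInstance, Fintype.ofFinite _, inferInstance,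
    FiniteField.finrank_extension F p e⟩

end PRAR
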