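import Pool.Agent.PRAR.K.Def

/-! # Section 10: properties of the base change -/

set_option autoImplicit false
set_option linter.unusedSectionVars false

open scoped Classical

noncomputable section

namespace PRAR

section kb

variable {ι : Type} [Fintype ι] {R : Type} [Field R]
variable {Y V : Type} [AddCommGroup Y] [Module R Y] [AddCommGroup V] [Module R V]

/-- Extension by zero of a point on the slots of `I`. -/
def kb_ext (I : Finset ι) (z : {i // i ∈ I} → Y) : ι → Y :=
  fun i => if h : i ∈ I then z ⟨i, h⟩ else 0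

theorem kb_ext_update (I : Finset ι) (inst : DecidableEq {i // i ∈ I}) (z : {i // i ∈ I} → Y)
    (i : {i // i ∈ I}) (u : Y) :
    kb_ext I (@Function.update _ _ inst z i u) = Function.update (kb_ext I z) i.1 u := by
  funext k
  by_cases hk : k = i.1
  · subst hk
    simp [kb_ext]
  · rw [Function.update_of_ne hk]
    unfold kb_ext
    by_cases h : k ∈ I
    · rw [dif_pos h, dif_pos h, Function.update_of_ne]
      intro h'
      exact hk (congrArg Subtype.val h')
    · rw [dif_neg h, dif_neg h]

/-- A map of type `I` as a multilinear map. -/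
def kb_mm {I : Finset ι} {T : (ι → Y) → V} (hT : MLin R I T) :
    MultilinearMap R (fun _ : {i // i ∈ I} => Y) V where
  toFun z := T (kb_ext I z)
  map_update_add' := by
    intro inst z i u v
    rw [kb_ext_update I inst, kb_ext_update I inst, kb_ext_update I inst]
    exact hT.add i.1 i.2 (kb_ext I z) u v
  map_update_smul' := by
    intro inst z i c u
    rw [kb_ext_update I inst, kb_ext_update I inst]
    exact hT.smul i.1 i.2 (kb_ext I z) c u

theorem kb_mm_apply {I : Finset ι} {T : (ι → Y) → V} (hT : MLin R I T)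
    (z : {i // i ∈ I} → Y) : kb_mm hT z = T (kb_ext I z) := rfl

theorem kb_mm_self {I : Finset ι} {T : (ι → Y) → V} (hT : MLin R I T) (y : ι → Y) :
    T y = kb_mm hT (fun i => y i.1) := by
  rw [kb_mm_apply]
  apply hT.congr
  intro i hi
  unfold kb_ext
  rw [dif_pos hi]

/-- Multilinear expansion. -/
theorem kb_expand {I : Finset ι} {T : (ι → Y) → V} (hT : MLin R I T) {κ : Type} [Fintype κ]
    (c : ι → κ → R) (b : ι → κ → Y) :
    T (fun i => ∑ k, c i k • b i k) =
      ∑ α : {i // i ∈ I} → κ, (∏ i, c i.1 (α i)) • T (kb_ext I (fun i => b i.1 (α i))) := by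
  rw [kb_mm_self hT]
  have h := (kb_mm hT).map_sum (fun (i : {i // i ∈ I}) (k : κ) => c i.1 k • b i.1 k)
  rw [h]
  apply Finset.sum_congr rfl
  intro α _
  rw [MultilinearMap.map_smul_univ, kb_mm_apply]

end kb

variable {ι : Type} [Fintype ι] {F K : Type} [Field F] [Fintype F] [Field K] [Fintype K]
  [Algebra F K]
variable {σ σ' : Type} [Fintype σ] [Fintype σ']

theorem kb_prod {I : Finset ι} {i : ι} (hi : i ∈ I) (y : ι → (σ → K)) (u : σ → K)
    (α : {i // i ∈ I} → σ) :
    (∏ j : {i // i ∈ I}, (Function.update y i u) j.1 (α j)) =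
      u (α ⟨i, hi⟩) * ∏ j ∈ Finset.univ.erase (⟨i, hi⟩ : {i // i ∈ I}), y j.1 (α j) := by
  rw [← Finset.mul_prod_erase Finset.univ _ (Finset.mem_univ (⟨i, hi⟩ : {i // i ∈ I}))]
  congr 1
  · simp
  · apply Finset.prod_congr rfl
    intro j hj
    have hne : j.1 ≠ i := by
      intro h
      exact (Finset.mem_erase.1 hj).1 (Subtype.ext h)
    rw [Function.update_of_ne hne]

theorem kb_prod_off {I : Finset ι} {i : ι} (hi : i ∉ I) (y : ι → (σ → K)) (u : σ → K)
    (α : {i // i ∈ I} → σ) :
    (∏ j : {i // i ∈ I}, (Function.update y i u) j.1 (α j)) = ∏ j : {i // i ∈ I}, y j.1 (α j) := by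
  apply Finset.prod_congr rfl
  intro j _
  have hne : j.1 ≠ i := by
    intro h
    exact hi (h ▸ j.2)
  rw [Function.update_of_ne hne]

theorem TK_mlin (I : Finset ι) (T : (ι → (σ → F)) → (σ' → F)) : MLin K I (TK K I T) := by
  refine ⟨?_, ?_, ?_⟩
  · intro i hi y u v
    funext s
    simp only [TK, Pi.add_apply]
    rw [← Finset.sum_add_distrib]
    apply Finset.sum_congr rfl
    intro α _
    rw [kb_prod hi, kb_prod hi, kb_prod hi]
    simp only [Pi.add_apply]
    ring
  · intro i hi y c u
    funext s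
    simp only [TK, Pi.smul_apply, smul_eq_mul]
    rw [Finset.mul_sum]
    apply Finset.sum_congr rfl
    intro α _
    rw [kb_prod hi, kb_prod hi]
    simp only [Pi.smul_apply, smul_eq_mul]
    ring
  · intro i hi y u
    funext s
    simp only [TK]
    apply Finset.sum_congr rfl
    intro α _
    rw [kb_prod_off hi]

theorem kb_pt (I : Finset ι) (α : {i // i ∈ I} → σ) :
    pt F I α = kb_ext I (fun i => (Pi.single (α i) 1 : σ → F)) := rfl

theorem TK_ext {I : Finset ι} {T : (ι → (σ → F)) → (σ' → F)} (hT : MLin F I T)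
    (y : ι → (σ → F)) :
    TK K I T (fun i s => algebraMap F K (y i s)) = fun s => algebraMap F K (T y s) := by
  have hy : y = fun i => ∑ k, y i k • (Pi.single k 1 : σ → F) := by
    funext i s
    simp [Finset.sum_apply, Pi.single_apply]
  have h := kb_expand hT (fun i k => y i k) (fun _ k => (Pi.single k 1 : σ → F))
  rw [← hy] at h
  funext s
  rw [h]
  simp only [TK, Finset.sum_apply, Pi.smul_apply, smul_eq_mul, map_sum, map_mul, map_prod, kb_pt]

theorem TK_vanish {I : Finset ι} {T : (ι → (σ → F)) → (σ' → F)} (hT : MLin F I T) {e : ℕ}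
    (ω : Fin e → K) (yb : ι → Fin e → (σ → F))
    (h : ∀ α : ι → Fin e, T (fun i => yb i (α i)) = 0) (he : 1 ≤ e) :
    TK K I T (fun i s => ∑ ν, ω ν * algebraMap F K (yb i ν s)) = 0 := by
  have hx : (fun (i : ι) (s : σ) => ∑ ν, ω ν * algebraMap F K (yb i ν s)) =
      fun i => ∑ ν, ω ν • (fun s => algebraMap F K (yb i ν s)) := by
    funext i s
    simp [Finset.sum_apply]
  rw [hx]
  have hM : MLin K I (TK K I T) := TK_mlin I T
  rw [kb_expand hM (fun _ ν => ω ν) (fun i ν => (fun s => algebraMap F K (yb i ν s)))]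
  apply Finset.sum_eq_zero
  intro α _
  have hz : TK K I T (kb_ext I (fun i => (fun s => algebraMap F K (yb i.1 (α i) s)))) = 0 := by
    have e0 : TK K I T (kb_ext I (fun i => (fun s => algebraMap F K (yb i.1 (α i) s)))) =
        TK K I T (fun i s => algebraMap F K
          (yb i (if h : i ∈ I then α ⟨i, h⟩ else ⟨0, he⟩) s)) := by
      apply hM.congr
      intro i hi
      unfold kb_ext
      rw [dif_pos hi]
      funext s
      rw [dif_pos hi]
    rw [e0, TK_ext hT (fun i => yb i (if h : i ∈ I then α ⟨i, h⟩ else ⟨0, he⟩)), h]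
    funext s
    simp
  rw [hz, smul_zero]

end PRAR
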