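import Pool.Agent.PRAR.K.B

/-! # Section 10: zero probability of the base change -/

set_option autoImplicit false
set_option linter.unusedSectionVars false

open scoped Classical

noncomputable section

namespace PRAR

variable {ι : Type} [Fintype ι] {F K : Type} [Field F] [Fintype F] [Field K] [Fintype K]
  [Algebra F K]
variable {σ σ' : Type} [Fintype σ] [Fintype σ']

/-- Expanding the points over `K` in a basis. -/
def kc_equiv {e : ℕ} (ω : Module.Basis (Fin e) F K) :
    (ι → Fin e → (σ → F)) ≃ (ι → (σ → K)) where
  toFun yb := fun i s => ω.equivFun.symm (fun ν => yb i ν s)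
  invFun x := fun i ν s => ω.equivFun (x i s) ν
  left_inv := by
    intro yb
    funext i ν s
    show ω.equivFun (ω.equivFun.symm (fun ν => yb i ν s)) ν = yb i ν s
    rw [ω.equivFun.apply_symm_apply]
  right_inv := by
    intro x
    funext i s
    show ω.equivFun.symm (fun ν => ω.equivFun (x i s) ν) = x i s
    exact ω.equivFun.symm_apply_apply (x i s)

theorem kc_equiv_apply {e : ℕ} (ω : Module.Basis (Fin e) F K) (yb : ι → Fin e → (σ → F)) :
    kc_equiv ω yb = fun i s => ∑ ν, ω ν * algebraMap F K (yb i ν s) := by
  funext i s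
  show ω.equivFun.symm (fun ν => yb i ν s) = _
  rw [Module.Basis.equivFun_symm_apply]
  refine Finset.sum_congr rfl fun ν _ => ?_
  rw [Algebra.smul_def, mul_comm]

theorem TK_prob {I : Finset ι} {T : (ι → (σ → F)) → (σ' → F)} (hT : MLin F I T) :
    prob (fun y : ι → (σ → F) => T y = 0) ^ (Module.finrank F K ^ I.card) ≤
      prob (fun x : ι → (σ → K) => TK K I T x = 0) := by
  have hfin : Module.Finite F K := Module.Finite.of_finite
  have he : 1 ≤ Module.finrank F K := Module.finrank_pos
  have hne : NeZero (Module.finrank F K) := ⟨by omega⟩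
  have ω := Module.finBasis F K
  have h1 := sid (ι := ι) (X := σ → F) (fun y : ι → (σ → F) => T y = 0) I (Module.finrank F K)
  have h2 := prob_equiv (kc_equiv (ι := ι) (σ := σ) ω) (fun x : ι → (σ → K) => TK K I T x = 0)
  rw [← h2]
  refine h1.trans (prob_mono fun yb h => ?_)
  rw [kc_equiv_apply]
  refine TK_vanish hT ω yb (fun α => ?_) he
  have h3 := h (fun i => if i ∈ I then α i else 0) (fun i hi => if_neg hi)
  rw [← h3]
  refine hT.congr fun i hi => ?_
  simp only [hi, if_true]

end PRAR
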