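import Pool.Agent.PRAR.K.B

/-! # Section 10: descent of decompositions -/

set_option autoImplicit false
set_option linter.unusedSectionVars false

open scoped Classical

noncomputable section

namespace PRAR

variable {ι : Type} [Fintype ι] {F K : Type} [Field F] [Fintype F] [Field K] [Fintype K]
  [Algebra F K]
variable {σ σ' : Type} [Fintype σ] [Fintype σ']

/-- The point over the large field. -/
def kd_emb (K : Type) [Field K] [Algebra F K] (y : ι → (σ → F)) : ι → (σ → K) :=
  fun i s => algebraMap F K (y i s)

theorem kd_emb_update (y : ι → (σ → F)) (i : ι) (u : σ → F) :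
    kd_emb K (Function.update y i u) =
      Function.update (kd_emb K y) i (fun s => algebraMap F K (u s)) := by
  funext k s
  unfold kd_emb
  by_cases h : k = i
  · subst h
    simp
  · simp [Function.update_of_ne h]

/-- Restriction of a map over the large field to the points over the small field. -/
theorem kd_mlin {V W : Type} [AddCommGroup V] [Module K V] [AddCommGroup W] [Module F W]
    {I : Finset ι} {f : (ι → (σ → K)) → V} (hf : MLin K I f) (L : V → W)
    (hadd : ∀ a b, L (a + b) = L a + L b)
    (hsmul : ∀ (c : F) (a : V), L (algebraMap F K c • a) = c • L a) :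
    MLin F I (fun y : ι → (σ → F) => L (f (kd_emb K y))) := by
  refine ⟨?_, ?_, ?_⟩
  · intro i hi y u v
    rw [kd_emb_update, kd_emb_update, kd_emb_update, ← hadd, ← hf.add i hi]
    congr 2
    congr 1
    funext s
    simp
  · intro i hi y c u
    rw [kd_emb_update, kd_emb_update, ← hsmul, ← hf.smul i hi]
    congr 2
    congr 1
    funext s
    simp
  · intro i hi y u
    rw [kd_emb_update, hf.off i hi]

theorem TK_descent {I : Finset ι} {T : (ι → (σ → F)) → (σ' → F)} (hT : MLin F I T) {r : ℕ}
    (h : PRle K I (TK K I T) r) : PRle F I T (Module.finrank F K * r) := by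
  obtain ⟨g, hg, hf⟩ := h
  choose J hJne hJI p v hp hv hgeq using hg
  obtain ⟨φ, hφ⟩ := LinearMap.exists_leftInverse_of_injective (Algebra.linearMap F K)
    (LinearMap.ker_eq_bot.2 (algebraMap F K).injective)
  have hφ' : ∀ a : F, φ (algebraMap F K a) = a := fun a => by
    have := LinearMap.congr_fun hφ a
    simpa using this
  let b := Module.finBasis F K
  refine ⟨fun k => fun y => b.repr (p (finProdFinEquiv.symm k).2 (kd_emb K y))
      (finProdFinEquiv.symm k).1 •
      (fun s' => φ (b (finProdFinEquiv.symm k).1 * v (finProdFinEquiv.symm k).2 (kd_emb K y) s')),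
    ?_, ?_⟩
  · intro k
    obtain ⟨⟨μ, s⟩, rfl⟩ := finProdFinEquiv.surjective k
    simp only [Equiv.symm_apply_apply]
    refine ⟨J s, hJne s, hJI s, fun y => b.repr (p s (kd_emb K y)) μ,
      fun y => (fun s' => φ (b μ * v s (kd_emb K y) s')), ?_, ?_, fun y => rfl⟩
    · refine kd_mlin (hp s) (fun x => b.repr x μ) (fun a c => by simp) (fun c a => ?_)
      show b.repr (algebraMap F K c • a) μ = c • b.repr a μ
      rw [smul_eq_mul, ← Algebra.smul_def, map_smul]
      rfl
    · refine kd_mlin (hv s) (fun x => (fun s' => φ (b μ * x s'))) (fun a c => ?_) (fun c a => ?_)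
      · funext s'
        simp [mul_add]
      · funext s'
        show φ (b μ * (algebraMap F K c • a s')) = c • φ (b μ * a s')
        rw [smul_eq_mul, mul_left_comm, ← Algebra.smul_def, map_smul]
  · intro y
    funext s'
    have h1 : TK K I T (kd_emb K y) = fun s => algebraMap F K (T y s) := TK_ext hT y
    have h2 : T y s' = φ (TK K I T (kd_emb K y) s') := by
      rw [h1, hφ']
    rw [h2, hf, ← Equiv.sum_comp finProdFinEquiv]
    simp only [Equiv.symm_apply_apply]
    rw [Fintype.sum_prod_type_right, Finset.sum_apply, Finset.sum_apply, map_sum]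
    apply Finset.sum_congr rfl
    intro s _
    rw [Finset.sum_apply, hgeq]
    simp only [Pi.smul_apply, smul_eq_mul]
    conv_lhs => rw [← b.sum_repr (p s (kd_emb K y))]
    rw [Finset.sum_mul, map_sum]
    apply Finset.sum_congr rfl
    intro μ _
    rw [smul_mul_assoc, map_smul, smul_eq_mul]

end PRAR
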