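import Pool.Agent.PRAR.Ba

/-! # Section 10: base change in coordinates -/

set_option autoImplicit false
set_option linter.unusedSectionVars false

open scoped Classical

noncomputable section

namespace PRAR

variable {ι : Type} [Fintype ι] {F K : Type} [Field F] [Field K] [Algebra F K]
variable {σ σ' : Type} [Fintype σ] [Fintype σ']

/-- The point with the basis vector `α i` in the slots of `I`. -/
def pt (F : Type) [Field F] (I : Finset ι) (α : {i // i ∈ I} → σ) : ι → σ → F :=
  fun i => if h : i ∈ I then Pi.single (α ⟨i, h⟩) 1 else 0

/-- The extension of a map of type `I` in coordinates. -/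
def TK (K : Type) [Field K] [Algebra F K] (I : Finset ι) (T : (ι → (σ → F)) → (σ' → F)) :
    (ι → (σ → K)) → (σ' → K) :=
  fun x s => ∑ α : {i // i ∈ I} → σ, (∏ i, x i.1 (α i)) * algebraMap F K (T (pt F I α) s)

end PRAR
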