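import Pool.Agent.PRAR.K.Def

/-! # Section 10: coordinates -/

set_option autoImplicit false
set_option linter.unusedSectionVars false

open scoped Classical

noncomputable section

namespace PRAR

/-- Composition with a linear map in all slots. -/
theorem ke_pre {ι : Type} [Fintype ι] {F : Type} [Field F] {Y Z V : Type} [AddCommGroup Y]
    [Module F Y] [AddCommGroup Z] [Module F Z] [AddCommGroup V] [Module F V] (L : Z →ₗ[F] Y)
    {I : Finset ι} {f : (ι → Y) → V} (hf : MLin F I f) :
    MLin F I (fun x : ι → Z => f (fun i => L (x i))) := by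
  have hu : ∀ (i : ι) (x : ι → Z) (u : Z), (fun k => L (Function.update x i u k)) =
      Function.update (fun k => L (x k)) i (L u) := by
    intro i x u
    funext k
    by_cases hk : k = i
    · subst hk; simp
    · simp [hk]
  refine ⟨?_, ?_, ?_⟩
  · intro i hi y u v
    simp only [hu, map_add]
    exact hf.add i hi _ _ _
  · intro i hi y c u
    simp only [hu, map_smul]
    exact hf.smul i hi _ _ _
  · intro i hi y u
    simp only [hu]
    exact hf.off i hi _ _

theorem DD_of_coord {ι : Type} [Fintype ι] (F : Type) [Field F] [Fintype F] (I : Finset ι) (C : ℕ)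
    (h : ∀ (m m' : ℕ) (f : (ι → (Fin m → F)) → (Fin m' → F)), MLin F I f → ∀ a : ℕ,
      (qq F)⁻¹ ^ a ≤ prob (fun y : ι → (Fin m → F) => f y = 0) → ∃ r ≤ C * (a + 1), PRle F I f r) :
    DD F I C := by
  intro Y V _ _ _ _ _ _ f hf a ha
  have hY : Module.Finite F Y := inferInstance
  have hV : Module.Finite F V := inferInstance
  let e : Y ≃ₗ[F] (Fin (Module.finrank F Y) → F) := (Module.finBasis F Y).equivFun
  let e' : V ≃ₗ[F] (Fin (Module.finrank F V) → F) := (Module.finBasis F V).equivFun
  let f' : (ι → (Fin (Module.finrank F Y) → F)) → (Fin (Module.finrank F V) → F) :=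
    fun x => e' (f (fun i => e.symm (x i)))
  have hf' : MLin F I f' :=
    (ke_pre (e.symm : (Fin (Module.finrank F Y) → F) →ₗ[F] Y) hf).comp
      (e' : V →ₗ[F] (Fin (Module.finrank F V) → F))
  have hE : ∀ y : ι → Y, f' (fun i => e (y i)) = e' (f y) := by
    intro y
    simp only [f', LinearEquiv.symm_apply_apply]
  have hp : prob (fun y : ι → Y => f y = 0) =
      prob (fun x : ι → (Fin (Module.finrank F Y) → F) => f' x = 0) := by
    rw [← prob_equiv (Equiv.piCongrRight (fun _ : ι => e.toEquiv)) (fun x => f' x = 0)]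
    apply prob_congr
    intro y
    have h1 : f' ((Equiv.piCongrRight (fun _ : ι => e.toEquiv)) y) = e' (f y) := hE y
    rw [h1]
    exact (map_eq_zero_iff e' e'.injective).symm
  rw [hp] at ha
  obtain ⟨r, hr, g, hg, hfg⟩ := h _ _ f' hf' a ha
  refine ⟨r, hr, fun s y => e'.symm (g s (fun i => e (y i))), ?_, ?_⟩
  · intro s
    obtain ⟨J, hJ, hJI, p, v, hp, hv, hgs⟩ := hg s
    refine ⟨J, hJ, hJI, fun y => p (fun i => e (y i)),
      fun y => e'.symm (v (fun i => e (y i))),
      ke_pre (e : Y →ₗ[F] (Fin (Module.finrank F Y) → F)) hp,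
      (ke_pre (e : Y →ₗ[F] (Fin (Module.finrank F Y) → F)) hv).comp
        (e'.symm : (Fin (Module.finrank F V) → F) →ₗ[F] V), ?_⟩
    intro y
    show e'.symm (g s (fun i => e (y i))) = _
    rw [hgs, map_smul]
  · intro y
    show f y = ∑ s, e'.symm (g s (fun i => e (y i)))
    rw [← map_sum, ← hfg, hE, LinearEquiv.symm_apply_apply]

end PRAR
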