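import Pool.Agent.PRAR.K.A
import Pool.Agent.PRAR.K.C
import Pool.Agent.PRAR.K.D
import Pool.Agent.PRAR.K.E

/-! # Section 10: all finite fields -/

set_option autoImplicit false
set_option linter.unusedSectionVars false

open scoped Classical

noncomputable section

namespace PRAR

theorem kf_inst {α : Type} (i1 i2 : Fintype α) (P : α → Prop) : @prob α i1 P = @prob α i2 P := by
  have h : i1 = i2 := Subsingleton.elim _ _
  rw [h]

theorem DD_ext {ι : Type} [Fintype ι] (F K : Type) [Field F] [Fintype F] [Field K] [Fintype K]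
    [Algebra F K] (I : Finset ι) (C : ℕ) (h : DD K I C) :
    DD F I (C * Module.finrank F K ^ (I.card + 1)) := by
  have he : 1 ≤ Module.finrank F K := Module.finrank_pos
  refine DD_of_coord F I _ ?_
  intro m m' f hf a ha
  have hcard : qq K = qq F ^ Module.finrank F K := by
    have h1 : Fintype.card K = Fintype.card F ^ Module.finrank F K :=
      Module.card_eq_pow_finrank
    show (Fintype.card K : ℝ) = (Fintype.card F : ℝ) ^ Module.finrank F K
    rw [h1]
    push_cast
    rfl
  have hq1 : (qq F)⁻¹ ≤ 1 := inv_le_one_of_one_le₀ (one_lt_qq F).le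
  have hq0 : 0 ≤ (qq F)⁻¹ := inv_nonneg.2 (qq_pos F).le
  have hb : (qq K)⁻¹ ^ (a * Module.finrank F K ^ I.card) ≤
      prob (fun x : ι → (Fin m → K) => TK K I f x = 0) := by
    have hT : prob (fun y : ι → (Fin m → F) => f y = 0) ^ (Module.finrank F K ^ I.card) ≤
        prob (fun x : ι → (Fin m → K) => TK K I f x = 0) := by
      exact le_trans (le_of_eq (congrArg (· ^ (Module.finrank F K ^ I.card)) (kf_inst _ _ _)))
        (le_trans (TK_prob (K := K) hf) (le_of_eq (kf_inst _ _ _)))
    refine le_trans ?_ hT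
    refine le_trans ?_ (pow_le_pow_left₀ (pow_nonneg hq0 _) ha _)
    rw [hcard, ← inv_pow, ← pow_mul, ← pow_mul]
    refine pow_le_pow_of_le_one hq0 hq1 ?_
    exact Nat.le_mul_of_pos_left _ he
  obtain ⟨r, hr, hp⟩ := h (Fin m → K) (Fin m' → K) (TK K I f) (TK_mlin I f) _ hb
  refine ⟨Module.finrank F K * r, ?_, TK_descent hf hp⟩
  have h2 : 1 ≤ Module.finrank F K ^ I.card := Nat.one_le_pow _ _ he
  calc Module.finrank F K * r
      ≤ Module.finrank F K * (C * (a * Module.finrank F K ^ I.card + 1)) :=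
        Nat.mul_le_mul_left _ hr
    _ ≤ Module.finrank F K * (C * (a * Module.finrank F K ^ I.card +
          Module.finrank F K ^ I.card)) := by gcongr
    _ = C * Module.finrank F K ^ (I.card + 1) * (a + 1) := by ring

theorem DD_all (ι : Type) [Fintype ι] (h : StmtMain ι) :
    ∃ C : ℕ, ∀ (F : Type) [Field F] [Fintype F] (I : Finset ι), DD F I C := by
  obtain ⟨Q0, C, h⟩ := h
  refine ⟨C * (Q0 + 1) ^ (Fintype.card ι + 1) + C, ?_⟩
  intro F _ _ I
  by_cases hF : Q0 ≤ Fintype.card F
  · exact (h F hF I).mono (Nat.le_add_left _ _)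
  · obtain ⟨K, i1, i2, i3, he⟩ := exists_ext F (Q0 + 1) (by omega)
    have h1 : Fintype.card K = Fintype.card F ^ Module.finrank F K :=
      Module.card_eq_pow_finrank
    have h2 : 1 < Fintype.card F := Fintype.one_lt_card
    have h3 : Q0 ≤ Fintype.card K := by
      rw [h1, he]
      have h4 : Q0 + 1 < 2 ^ (Q0 + 1) := Nat.lt_two_pow_self
      have h5 : 2 ^ (Q0 + 1) ≤ Fintype.card F ^ (Q0 + 1) := Nat.pow_le_pow_left h2 _
      omega
    refine (DD_ext F K I C (h K h3 I)).mono ?_
    rw [he]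
    have h6 : (Q0 + 1) ^ (I.card + 1) ≤ (Q0 + 1) ^ (Fintype.card ι + 1) :=
      Nat.pow_le_pow_right (by omega) (Nat.succ_le_succ (Finset.card_le_univ I))
    exact (Nat.mul_le_mul_left C h6).trans (Nat.le_add_right _ _)

end PRAR
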