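import Pool.Agent.PRAR.K.I
import Pool.Agent.H.MP_d91f4a_co.Equiv

/-! # Section 10: MP_d91f4a_co -/

set_option autoImplicit false
set_option linter.unusedSectionVars false

open scoped Classical

noncomputable section

namespace PRAR

open Pool.Agent.H.MP_d91f4a_co in
theorem km_slice {p : ℕ} [Fact p.Prime] {e n : ℕ} (m : Form p (e + 1) n)
    (y : Fin (e + 1) → Fin n → ZMod p) :
    slice m y = 0 ↔ ∀ u : Fin n → ZMod p, m (Function.update y 0 u) = 0 := by
  constructor
  · intro h u
    have h1 := pi_eq_sum_univ' u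
    have h2 := congrArg (m.toLinearMap y 0) h1
    rw [map_sum] at h2
    simp only [MultilinearMap.toLinearMap_apply, map_smul, smul_eq_mul] at h2
    rw [h2]
    refine Finset.sum_eq_zero fun i _ => ?_
    have h3 : slice m y i = 0 := congrFun h i
    have h4 : m (Function.update y 0 (Pi.single i 1)) = 0 := h3
    rw [h4, mul_zero]
  · intro h
    funext i
    exact h _

open Pool.Agent.H.MP_d91f4a_co in
theorem km_prob {p : ℕ} [Fact p.Prime] {e n : ℕ} (m : Form p (e + 1) n) :
    prob (fun y : Fin (e + 1) → Fin n → ZMod p =>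
      ∀ u : Fin n → ZMod p, m (Function.update y 0 u) = 0) = ‖bias 1 Finset.univ m‖ := by
  rw [norm_bias_univ m 1 one_ne_zero, prob_eq_avg, av, avg, Fintype.piFinset_univ,
    Finset.card_univ]
  congr 1
  refine Finset.sum_congr rfl fun y _ => ?_
  rw [wt_zero]
  by_cases h : slice m y = 0
  · rw [if_pos h, if_pos ((km_slice m y).1 h)]
  · rw [if_neg h, if_neg (fun h' => h ((km_slice m y).2 h'))]

/-- A map of type `I` as a multilinear map. -/
theorem km_ml {ι : Type} [Fintype ι] {F : Type} [Field F] {Y : Type} [AddCommGroup Y] [Module F Y]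
    {I : Finset ι} {f : (ι → Y) → F} (hf : MLin F I f) :
    ∃ M : MultilinearMap F (fun _ : ↥I => Y) F, ∀ x : ι → Y, f x = M (fun i => x i) := by
  let ext : (↥I → Y) → ι → Y := fun z i => if h : i ∈ I then z ⟨i, h⟩ else 0
  have hup : ∀ (dec : DecidableEq ↥I) (z : ↥I → Y) (i : ↥I) (u : Y),
      ext (@Function.update _ _ dec z i u) = Function.update (ext z) i.1 u := by
    intro dec z i u
    funext j
    by_cases hj : j = i.1
    · subst hj
      simp [ext]
    · rw [Function.update_of_ne hj]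
      by_cases hjI : j ∈ I
      · have h1 : (⟨j, hjI⟩ : ↥I) ≠ i := fun h => hj (congrArg Subtype.val h)
        simp only [ext, dif_pos hjI]
        rw [Function.update_of_ne h1]
      · simp only [ext, dif_neg hjI]
  refine ⟨⟨fun z => f (ext z), ?_, ?_⟩, ?_⟩
  · intro dec z i u v
    rw [hup dec, hup dec, hup dec]
    exact hf.add i.1 i.2 _ _ _
  · intro dec z i c u
    rw [hup dec, hup dec]
    exact hf.smul i.1 i.2 _ _ _
  · intro x
    show f x = f (ext (fun i => x i))
    refine hf.congr fun i hi => ?_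
    simp only [ext, dif_pos hi]

theorem km_inst {α : Type} (i1 i2 : Fintype α) (P : α → Prop) : @prob α i1 P = @prob α i2 P := by
  have h : i1 = i2 := Subsingleton.elim _ _
  rw [h]

theorem km_upd {e : ℕ} {Y : Type} (dec : DecidableEq (Fin (e + 2))) (y : Fin (e + 2) → Y) (u : Y) :
    @Function.update _ _ dec y (⟨0, by omega⟩ : Fin (e + 2)) u =
      @Function.update _ _ (instDecidableEqFin _) y (0 : Fin (e + 2)) u := by
  have h3 : dec = instDecidableEqFin _ := Subsingleton.elim _ _
  subst h3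
  rfl

theorem arBound_of (p : ℕ) [Fact p.Prime] (d : ℕ) (hd : 2 ≤ d)
    (h : ScalarBound (Fin d) ⟨0, by omega⟩) : Pool.Agent.H.MP_d91f4a_co.ArBound p d := by
  obtain ⟨e, rfl⟩ : ∃ e, d = e + 2 := ⟨d - 2, by omega⟩
  obtain ⟨C, hC, h⟩ := h
  refine ⟨C, hC, fun n _ m => ?_⟩
  have hm : MLin (ZMod p) (Finset.univ : Finset (Fin (e + 2)))
      (fun y : Fin (e + 2) → Fin n → ZMod p => m y) := by
    refine ⟨fun i _ y u v => ?_, fun i _ y c u => ?_, fun i hi => absurd (Finset.mem_univ i) hi⟩
    · exact @MultilinearMap.map_update_add' _ _ _ _ _ _ _ _ _ m (fun a b => Classical.propDecidable (a = b)) y i u v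
    · exact @MultilinearMap.map_update_smul' _ _ _ _ _ _ _ _ _ m (fun a b => Classical.propDecidable (a = b)) y i c u
  obtain ⟨r, hr, J, a, b, hJ, ha, hb, hab⟩ := h (ZMod p) (Fin n → ZMod p) (fun y => m y) hm
  refine ⟨r, hr.trans (le_of_eq ?_), J, fun k => ⟨(hJ k).1, fun hk => ?_⟩, ?_⟩
  · unfold Pool.Agent.H.MP_d91f4a_co.ar
    have h1 : qq (ZMod p) = (p : ℝ) := by
      show ((Fintype.card (ZMod p) : ℕ) : ℝ) = (p : ℝ)
      rw [ZMod.card]
    rw [h1]
    refine congrArg (fun z : ℝ => C * (-Real.logb (p : ℝ) z)) ?_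
    rw [← km_prob m]
    refine (km_inst _ inferInstance _).trans (prob_congr fun y => forall_congr' fun u => ?_)
    exact iff_of_eq (congrArg (fun z => m z = 0) (km_upd _ y u))
  · apply (hJ k).2
    rw [hk]
    exact Finset.mem_univ _
  · have hb' : ∀ k, MLin (ZMod p) ((J k)ᶜ) (b k) := by
      intro k
      have h2 := hb k
      refine (congrArg (fun I => MLin (ZMod p) I (b k)) ?_).mpr h2
      ext i
      simp
    choose A hA using fun k => km_ml (ha k)
    choose B hB using fun k => km_ml (hb' k)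
    refine ⟨A, B, fun x => ?_⟩
    have h1 := hab x
    rw [show m x = ∑ k, a k x * b k x from h1]
    exact Finset.sum_congr rfl fun k _ => by rw [hA k x, hB k x]

theorem linBound_of (p : ℕ) [Fact p.Prime] (d : ℕ) (hd : 2 ≤ d)
    (h : ScalarBound (Fin d) ⟨0, by omega⟩) (S : Finset (ZMod p)) (hS : 2 ≤ S.card) :
    Pool.Agent.H.MP_d91f4a_co.LinBound p d S :=
  (Pool.Agent.H.MP_d91f4a_co.linBound_iff p d hd S hS).2 (arBound_of p d hd h)

end PRAR
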